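import Pool.Agent.Helper156.OF.OutPart

set_option autoImplicit false

open Pool.Agent.Helper156.OF

namespace Pool.Agent.Results.MP_2214fc_al.OutPushout

/-! ### Definitions -/

/-- Inner automorphisms form a normal subgroup. -/
instance innerNormal (G : Type) [Group G] : (MulAut.conj : G →* MulAut G).range.Normal :=
  inner_normal G

/-- The outer automorphism group: automorphisms modulo inner automorphisms. -/
abbrev Out (G : Type) [Group G] : Type :=
  MulAut G ⧸ (MulAut.conj : G →* MulAut G).range

/-- A simple complex of groups over the poset `Q`: a group `grp σ` for every `σ : Q` and an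
injective homomorphism `ψ : grp σ →* grp τ` for every pair `σ > τ`, compatible with
composition. -/
structure SimpleComplex (Q : Type) [PartialOrder Q] where
  /-- The group attached to `σ`. -/
  grp : Q → Type
  /-- Its group structure. -/
  [isGroup : ∀ σ, Group (grp σ)]
  /-- The homomorphism attached to `σ > τ`. -/
  ψ : ∀ {σ τ : Q}, σ > τ → (grp σ →* grp τ)
  ψ_injective : ∀ {σ τ : Q} (h : σ > τ), Function.Injective (ψ h)
  ψ_comp : ∀ {σ τ ρ : Q} (h₁ : σ > τ) (h₂ : τ > ρ), (ψ h₂).comp (ψ h₁) = ψ (gt_trans h₁ h₂)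

attribute [instance] SimpleComplex.isGroup

namespace SimpleComplex

variable {Q : Type} [PartialOrder Q] (C : SimpleComplex Q)

/-- The relators of the colimit of the diagram: the multiplication tables of all the groups
`grp σ`, and the identifications of `g` with `ψ g`. -/
def relators : Set (FreeGroup (Σ σ : Q, C.grp σ)) :=
  {r | (∃ (σ : Q) (g h : C.grp σ),
      r = FreeGroup.of ⟨σ, g⟩ * FreeGroup.of ⟨σ, h⟩ * (FreeGroup.of ⟨σ, g * h⟩)⁻¹) ∨
    (∃ (σ τ : Q) (lt : σ > τ) (g : C.grp σ),
      r = FreeGroup.of ⟨σ, g⟩ * (FreeGroup.of ⟨τ, C.ψ lt g⟩)⁻¹)}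

/-- The colimit of the diagram of groups: the group presented by the elements of all the groups
`grp σ` subject to the relators above. -/
abbrev Colim : Type := PresentedGroup C.relators

/-- The canonical map from `grp σ` to the colimit. -/
def can (σ : Q) (g : C.grp σ) : C.Colim := PresentedGroup.of ⟨σ, g⟩

/-- The complex is developable if all canonical maps to the colimit are injective. -/
def Developable : Prop := ∀ σ : Q, Function.Injective (C.can σ)

/-- The canonical map as a homomorphism. -/
def canHom (σ : Q) : C.grp σ →* C.Colim :=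
  MonoidHom.mk' (C.can σ) fun g h => by
    have key : (PresentedGroup.mk C.relators)
        (FreeGroup.of ⟨σ, g⟩ * FreeGroup.of ⟨σ, h⟩ * (FreeGroup.of ⟨σ, g * h⟩)⁻¹) = 1 :=
      PresentedGroup.one_of_mem (Or.inl ⟨σ, g, h, rfl⟩)
    rw [map_mul, map_mul, map_inv, mul_inv_eq_one] at key
    exact key.symm

end SimpleComplex

/-- The geometric realisation of (the order complex of) a finite poset, in barycentric
coordinates: the points of the standard simplex on `Q` whose support is a chain. -/
def realisation (Q : Type) [Fintype Q] [PartialOrder Q] : Set (Q → ℝ) :=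
  {t | (∀ q, 0 ≤ t q) ∧ ∑ q, t q = 1 ∧ IsChain (· ≤ ·) {q | t q ≠ 0}}

/-- `Γ` is a pushout of finitely many of its finite subgroups: it is isomorphic to the colimit of
a developable simple complex of finite groups over a finite poset whose realisation is connected
and simply connected. -/
def IsPushoutOfFiniteSubgroups (Γ : Type) [Group Γ] : Prop :=
  ∃ (Q : Type) (_ : Fintype Q) (_ : PartialOrder Q) (C : SimpleComplex Q),
    (∀ σ, Finite (C.grp σ)) ∧ SimplyConnectedSpace (realisation Q) ∧ C.Developable ∧
      Nonempty (Γ ≃* C.Colim)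

/-! ### Realisations of posets with a greatest element -/

theorem realisation_contractible (Q : Type) [Fintype Q] [PartialOrder Q] [OrderTop Q] :
    ContractibleSpace (realisation Q) := by
  classical
  have hx : (Pi.single ⊤ 1 : Q → ℝ) ∈ realisation Q := by
    refine ⟨fun q => ?_, ?_, ?_⟩
    · by_cases h : q = ⊤
      · subst h; simp
      · simp [h]
    · simp
    · intro a ha b hb hab
      have h1 : a = ⊤ := by
        by_contra h
        exact ha (by simp [h])
      have h2 : b = ⊤ := by
        by_contra h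
        exact hb (by simp [h])
      exact absurd (h1.trans h2.symm) hab
  have star : StarConvex ℝ (Pi.single ⊤ 1 : Q → ℝ) (realisation Q) := by
    rintro y ⟨hy0, hy1, hyc⟩ a b ha hb hab
    refine ⟨fun q => ?_, ?_, ?_⟩
    · have h1 := hx.1 q
      have h2 := hy0 q
      simp only [Pi.add_apply, Pi.smul_apply, smul_eq_mul]
      positivity
    · simp only [Pi.add_apply, Pi.smul_apply, smul_eq_mul, Finset.sum_add_distrib,
        ← Finset.mul_sum, hy1, hx.2.1, mul_one, hab]
    · intro p hp q hq hpq
      by_cases h1 : p = ⊤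
      · right; rw [h1]; exact le_top
      · by_cases h2 : q = ⊤
        · left; rw [h2]; exact le_top
        · apply hyc _ _ hpq
          · intro h
            apply hp
            simp [h1, h]
          · intro h
            apply hq
            simp [h2, h]
  exact star.contractibleSpace ⟨_, hx⟩

/-! ### The colimit of the finite subgroups generated by subsets of a finite set -/

section general

variable (Γ : Type) [Group Γ] (S : Set Γ)

/-- The finite subgroups generated by subsets of `S`. -/
def IsPiece (H : Subgroup Γ) : Prop := Finite H ∧ ∃ T : Set Γ, T ⊆ S ∧ H = Subgroup.closure T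

/-- The poset of the finite subgroups generated by subsets of `S`, ordered by reverse
inclusion. -/
abbrev Piece : Type := OrderDual {H : Subgroup Γ // IsPiece Γ S H}

variable {Γ S}

/-- The underlying subgroup. -/
def Piece.sub (σ : Piece Γ S) : Subgroup Γ := (OrderDual.ofDual σ).1

lemma Piece.sub_finite (σ : Piece Γ S) : Finite σ.sub := (OrderDual.ofDual σ).2.1

lemma Piece.sub_le {σ τ : Piece Γ S} (h : σ ≥ τ) : σ.sub ≤ τ.sub := h

lemma piece_finite (hS : S.Finite) : Finite (Piece Γ S) := by
  have h1 : {H : Subgroup Γ | IsPiece Γ S H}.Finite := by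
    refine (hS.finite_subsets.image Subgroup.closure).subset ?_
    rintro H ⟨_, T, hT, rfl⟩
    exact ⟨T, hT, rfl⟩
  exact h1.to_subtype

instance : OrderTop (Piece Γ S) where
  top := OrderDual.toDual ⟨⊥, inferInstance, ∅, Set.empty_subset _, by simp⟩
  le_top := fun σ => (bot_le : (⊥ : Subgroup Γ) ≤ σ.sub)

variable (Γ S)

/-- The simple complex of groups given by the finite subgroups generated by subsets of `S`. -/
def pieces : SimpleComplex (Piece Γ S) where
  grp := fun σ => σ.sub
  ψ := fun h => Subgroup.inclusion (Piece.sub_le h.le)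
  ψ_injective := fun _ => Subgroup.inclusion_injective _
  ψ_comp := fun _ _ => rfl

variable {Γ S}

lemma can_mono {σ τ : Piece Γ S} (h : σ ≥ τ) (g : Γ) (hσ : g ∈ σ.sub) (hτ : g ∈ τ.sub) :
    (pieces Γ S).canHom σ ⟨g, hσ⟩ = (pieces Γ S).canHom τ ⟨g, hτ⟩ := by
  rcases h.lt_or_eq with h | h
  · have key : (PresentedGroup.mk (pieces Γ S).relators)
        (FreeGroup.of ⟨σ, ⟨g, hσ⟩⟩ * (FreeGroup.of ⟨τ, (pieces Γ S).ψ h ⟨g, hσ⟩⟩)⁻¹) = 1 :=
      PresentedGroup.one_of_mem (Or.inr ⟨σ, τ, h, ⟨g, hσ⟩, rfl⟩)
    rw [map_mul, map_inv, mul_inv_eq_one] at key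
    exact key
  · subst h
    rfl

/-- The piece generated by a subset. -/
def mkPiece (T : Set Γ) (hT : T ⊆ S) (hf : Finite (Subgroup.closure T)) : Piece Γ S :=
  OrderDual.toDual ⟨Subgroup.closure T, hf, T, hT, rfl⟩

/-- The tautological map to `Γ`. -/
def toBig : (pieces Γ S).Colim →* Γ :=
  PresentedGroup.toGroup (f := fun x : (Σ σ : Piece Γ S, (pieces Γ S).grp σ) =>
    ((show x.1.sub from x.2 : x.1.sub) : Γ)) (by
    rintro r (⟨σ, g, h, rfl⟩ | ⟨σ, τ, lt, g, rfl⟩)
    · simp only [map_mul, map_inv, FreeGroup.lift_apply_of]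
      exact mul_inv_eq_one.2 rfl
    · simp only [map_mul, map_inv, FreeGroup.lift_apply_of]
      exact mul_inv_eq_one.2 rfl)

lemma toBig_can (σ : Piece Γ S) (g : σ.sub) : toBig ((pieces Γ S).canHom σ g) = (g : Γ) := by
  show toBig (PresentedGroup.of ⟨σ, g⟩) = _
  unfold toBig
  rw [PresentedGroup.toGroup.of]

lemma pieces_developable : (pieces Γ S).Developable := by
  intro σ g h e
  have key : toBig ((pieces Γ S).canHom σ g) = toBig ((pieces Γ S).canHom σ h) := congrArg toBig e
  rw [toBig_can σ g, toBig_can σ h] at key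
  exact Subtype.ext key

open Classical in
/-- The tautological function from `Γ` to the colimit. -/
noncomputable def back (g : Γ) : (pieces Γ S).Colim :=
  if h : g ∈ S ∧ Finite (Subgroup.closure {g}) then
    (pieces Γ S).canHom (mkPiece {g} (Set.singleton_subset_iff.2 h.1) h.2)
      ⟨g, Subgroup.subset_closure rfl⟩
  else 1

lemma back_eq (σ : Piece Γ S) {g : Γ} (hg : g ∈ S) (hσ : g ∈ σ.sub) :
    back (S := S) g = (pieces Γ S).canHom σ ⟨g, hσ⟩ := by
  have hle : Subgroup.closure {g} ≤ σ.sub := by
    rw [Subgroup.closure_le, Set.singleton_subset_iff]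
    exact hσ
  have hf : Finite (Subgroup.closure {g}) := by
    have := σ.sub_finite
    exact Finite.of_injective _ (Subgroup.inclusion_injective hle)
  unfold back
  rw [dif_pos ⟨hg, hf⟩]
  exact can_mono (σ := mkPiece {g} (Set.singleton_subset_iff.2 hg) hf) (τ := σ) hle g _ _

lemma back_LM : LM S (back (Γ := Γ) (S := S)) := by
  intro T hT hf
  refine ⟨(pieces Γ S).canHom (mkPiece T hT hf), ?_⟩
  intro g hg hgS
  exact (back_eq (mkPiece T hT hf) hgS hg).symm

/-- The main criterion. -/
theorem criterion (hS : S.Finite)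
    (hgen : Subgroup.closure {g : Γ | g ∈ S ∧ IsOfFinOrder g} = ⊤)
    (hext : ∀ (K : Type) [Group K] (f : Γ → K), LM S f → ∃ F : Γ →* K, ∀ g ∈ S, F g = f g) :
    IsPushoutOfFiniteSubgroups Γ := by
  classical
  have := piece_finite (Γ := Γ) hS
  obtain ⟨F, hF⟩ := hext _ (back (Γ := Γ) (S := S)) back_LM
  have h1 : (toBig (Γ := Γ) (S := S)).comp F = MonoidHom.id Γ := by
    apply MonoidHom.eq_of_eqOn_dense hgen
    rintro g ⟨hg, ho⟩
    have hf : Finite (Subgroup.closure {g}) := by
      rw [← Subgroup.zpowers_eq_closure]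
      exact (finite_zpowers.2 ho).to_subtype
    rw [MonoidHom.comp_apply, hF g hg,
      back_eq (mkPiece {g} (Set.singleton_subset_iff.2 hg) hf) hg (Subgroup.subset_closure rfl),
      toBig_can]
    rfl
  have h2 : F.comp (toBig (Γ := Γ) (S := S)) = MonoidHom.id _ := by
    have key : ∀ σ : Piece Γ S, F.comp σ.sub.subtype = (pieces Γ S).canHom σ := by
      intro σ
      obtain ⟨⟨H, hfin, T, hT, rfl⟩, rfl⟩ : ∃ p, OrderDual.toDual p = σ := ⟨σ, rfl⟩
      have hagree : ∀ (g : Γ) (hg : g ∈ Subgroup.closure T),
          F g = (pieces Γ S).canHom (mkPiece T hT hfin) ⟨g, hg⟩ := by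
        intro g hg
        induction hg using Subgroup.closure_induction with
        | mem x hx =>
          rw [hF x (hT hx)]
          exact back_eq (mkPiece T hT hfin) (hT hx) _
        | one => exact (map_one F).trans (map_one _).symm
        | mul x y hx hy ihx ihy =>
          rw [map_mul, ihx, ihy]
          exact (map_mul ((pieces Γ S).canHom (mkPiece T hT hfin)) ⟨x, hx⟩ ⟨y, hy⟩).symm
        | inv x hx ih =>
          rw [map_inv, ih]
          exact (map_inv ((pieces Γ S).canHom (mkPiece T hT hfin)) ⟨x, hx⟩).symm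
      apply MonoidHom.ext
      rintro ⟨g, hg⟩
      exact hagree g hg
    apply PresentedGroup.ext
    rintro ⟨σ, g⟩
    show F (toBig ((pieces Γ S).canHom σ g)) = (pieces Γ S).canHom σ g
    rw [toBig_can σ g, ← key σ]
    rfl
  have fin : Fintype (Piece Γ S) := Fintype.ofFinite _
  refine ⟨Piece Γ S, fin, inferInstance, pieces Γ S, fun σ => σ.sub_finite, ?_,
    pieces_developable, ⟨MonoidHom.toMulEquiv F toBig h1 h2⟩⟩
  have := realisation_contractible (Piece Γ S)
  infer_instance

end general

/-- For every `n ≥ 3` the group `Out(F_n)` is a pushout of finitely many of its finite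
subgroups. -/
theorem result (n : ℕ) (hn : 3 ≤ n) : IsPushoutOfFiniteSubgroups (Out (FreeGroup (Fin n))) := by
  obtain ⟨k, _, hk⟩ := ext_out (α := Fin n) (by simpa using hn)
  apply criterion (S := qO (Fin n) '' SS (Fin n) k) ((SS_finite k).image _) ?_ hk
  rw [eq_top_iff]
  have h1 : Subgroup.map (qO (Fin n)) (Subgroup.closure (basic (Fin n))) = ⊤ := by
    rw [closure_basic, ← MonoidHom.range_eq_map, MonoidHom.range_eq_top]
    exact QuotientGroup.mk'_surjective _
  rw [← h1, MonoidHom.map_closure]
  apply Subgroup.closure_mono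
  rintro _ ⟨g, hg, rfl⟩
  exact ⟨⟨g, basic_sub_SS k hg, rfl⟩, MonoidHom.isOfFinOrder _ (basic_finite_order hg)⟩

end Pool.Agent.Results.MP_2214fc_al.OutPushout
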